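import Pool.Agent.Helper78_E.Stmts

/-!
# MP_7d2497_an: module DUAL (functionals on `L^1` of the line are bounded functions)
-/

set_option autoImplicit false

namespace Pool.Agent.H78E.H61

open MeasureTheory Filter Topology Complex Pool.Agent.H78E
open scoped ENNReal NNReal ComplexConjugate

section Fin

variable {α : Type*} [MeasurableSpace α] {ν : Measure α} [IsFiniteMeasure ν]

/-- the inclusion of `L^2` in `L^1` followed by a functional -/
noncomputable def incl (ℓ : Lp ℂ 1 ν →L[ℂ] ℂ) : Lp ℂ 2 ν →L[ℂ] ℂ :=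
  LinearMap.mkContinuous
    { toFun := fun f => ℓ (((Lp.memLp f).mono_exponent one_le_two).toLp f)
      map_add' := by
        intro f g
        rw [← map_add, ← MemLp.toLp_add]
        congr 1
        exact MemLp.toLp_congr _ _ (Lp.coeFn_add f g)
      map_smul' := by
        intro c f
        rw [RingHom.id_apply, ← map_smul, ← MemLp.toLp_const_smul]
        congr 1
        exact MemLp.toLp_congr _ _ (Lp.coeFn_smul c f) }
    (‖ℓ‖ * (ν Set.univ ^ ((1 : ℝ) / 1 - 1 / 2)).toReal)
    (by
      intro f
      have h1 := ℓ.le_opNorm (((Lp.memLp f).mono_exponent one_le_two).toLp f)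
      refine h1.trans ?_
      rw [mul_assoc]
      apply mul_le_mul_of_nonneg_left _ (norm_nonneg ℓ)
      rw [Lp.norm_toLp, Lp.norm_def, mul_comm, ← ENNReal.toReal_mul]
      apply ENNReal.toReal_mono
      · apply ENNReal.mul_ne_top (Lp.memLp f).2.ne
        exact ENNReal.rpow_ne_top_of_nonneg (by norm_num) (measure_ne_top ν _)
      · have := eLpNorm_le_eLpNorm_mul_rpow_measure_univ (μ := ν) (p := 1) (q := 2) one_le_two
          (Lp.memLp f).1
        simpa using this)

theorem exists_L2 (ℓ : Lp ℂ 1 ν →L[ℂ] ℂ) : ∃ u : α → ℂ, StronglyMeasurable u ∧ MemLp u 2 ν ∧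
    ∀ (f : α → ℂ) (hf : MemLp f 2 ν),
      ℓ ((hf.mono_exponent one_le_two).toLp f) = ∫ t, f t * u t ∂ν := by
  set v : Lp ℂ 2 ν := (InnerProductSpace.toDual ℂ (Lp ℂ 2 ν)).symm (incl ℓ) with hv
  refine ⟨fun t => conj (v t), ?_, ?_, ?_⟩
  · exact continuous_conj.comp_stronglyMeasurable (Lp.stronglyMeasurable v)
  · exact (Lp.memLp v).star
  · intro f hf
    have h1 : inner ℂ v (hf.toLp f) = incl ℓ (hf.toLp f) := by
      rw [hv, InnerProductSpace.toDual_symm_apply]
    have h2 : incl ℓ (hf.toLp f) = ℓ ((hf.mono_exponent one_le_two).toLp f) := by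
      show ℓ (((Lp.memLp (hf.toLp f)).mono_exponent one_le_two).toLp (hf.toLp f)) = _
      congr 1
      exact MemLp.toLp_congr _ _ hf.coeFn_toLp
    rw [← h2, ← h1, L2.inner_def]
    apply integral_congr_ae
    filter_upwards [hf.coeFn_toLp] with t ht
    rw [ht]
    simp [RCLike.inner_apply]

theorem dual_finite (ℓ : Lp ℂ 1 ν →L[ℂ] ℂ) : ∃ h : α → ℂ, Measurable h ∧
    (∀ t, ‖h t‖ ≤ ‖ℓ‖) ∧ ∀ f : Lp ℂ 1 ν, ℓ f = ∫ t, f t * h t ∂ν := by
  obtain ⟨u, hu, hu2, hu3⟩ := exists_L2 ℓ
  have hu1 : MemLp u 1 ν := hu2.mono_exponent one_le_two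
  have hui : Integrable u ν := memLp_one_iff_integrable.1 hu1
  -- the bound
  have hbound : (fun t => ‖u t‖) ≤ᵐ[ν] fun _ => ‖ℓ‖ := by
    apply ae_le_of_forall_setIntegral_le hui.norm (integrable_const _)
    intro A hA _
    set s : α → ℂ := A.indicator (fun t => (‖u t‖ : ℂ) / u t) with hs
    have hsm : StronglyMeasurable s := by
      apply Measurable.stronglyMeasurable
      apply Measurable.indicator _ hA
      exact (Complex.measurable_ofReal.comp hu.norm.measurable).div hu.measurable
    have hs1 : ∀ t, ‖s t‖ ≤ A.indicator (fun _ => (1 : ℝ)) t := by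
      intro t
      by_cases ht : t ∈ A
      · rw [hs, Set.indicator_of_mem ht, Set.indicator_of_mem ht, norm_div, Complex.norm_real,
          norm_norm]
        exact div_self_le_one _
      · rw [hs, Set.indicator_of_notMem ht, Set.indicator_of_notMem ht, norm_zero]
    have hs1' : ∀ t, ‖s t‖ ≤ 1 := by
      intro t
      refine (hs1 t).trans ?_
      by_cases ht : t ∈ A
      · rw [Set.indicator_of_mem ht]
      · rw [Set.indicator_of_notMem ht]; exact zero_le_one
    have hs2 : MemLp s 2 ν := MemLp.of_bound hsm.aestronglyMeasurable 1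
      (Filter.Eventually.of_forall hs1')
    have h1 := hu3 s hs2
    have h2 : ∫ t, s t * u t ∂ν = ((∫ t in A, ‖u t‖ ∂ν : ℝ) : ℂ) := by
      rw [← integral_indicator hA, ← integral_complex_ofReal]
      apply integral_congr_ae
      refine Filter.Eventually.of_forall (fun t => ?_)
      by_cases ht : t ∈ A
      · simp only [hs, Set.indicator_of_mem ht]
        by_cases hz : u t = 0
        · simp [hz]
        · rw [div_mul_cancel₀ _ hz]
      · simp only [hs, Set.indicator_of_notMem ht]
        simp
    have h3 := ℓ.le_opNorm ((hs2.mono_exponent one_le_two).toLp s)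
    rw [h1, h2, Complex.norm_real, Real.norm_of_nonneg (by positivity)] at h3
    have h4 : ‖(hs2.mono_exponent one_le_two).toLp s‖ ≤ ν.real A := by
      rw [L1.norm_eq_integral_norm]
      have h5 : ∫ t, ‖((hs2.mono_exponent one_le_two).toLp s) t‖ ∂ν = ∫ t, ‖s t‖ ∂ν := by
        apply integral_congr_ae
        filter_upwards [(hs2.mono_exponent one_le_two).coeFn_toLp] with t ht
        rw [ht]
      rw [h5]
      calc ∫ t, ‖s t‖ ∂ν ≤ ∫ t, A.indicator (fun _ => (1 : ℝ)) t ∂ν := by
            apply integral_mono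
            · exact (memLp_one_iff_integrable.1 (hs2.mono_exponent one_le_two)).norm
            · exact (integrable_const _).indicator hA
            · exact hs1
        _ = ν.real A := by
            rw [integral_indicator hA]
            simp
    calc ∫ t in A, ‖u t‖ ∂ν ≤ ‖ℓ‖ * ‖(hs2.mono_exponent one_le_two).toLp s‖ := h3
      _ ≤ ‖ℓ‖ * ν.real A := mul_le_mul_of_nonneg_left h4 (norm_nonneg _)
      _ = ∫ t in A, ‖ℓ‖ ∂ν := by
          simp [mul_comm]
  -- the bounded representative
  set h : α → ℂ := fun t => if ‖u t‖ ≤ ‖ℓ‖ then u t else 0 with hh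
  have hhm : Measurable h := by
    apply Measurable.ite _ hu.measurable measurable_const
    exact measurableSet_le hu.norm.measurable measurable_const
  have hhb : ∀ t, ‖h t‖ ≤ ‖ℓ‖ := by
    intro t
    simp only [hh]
    split_ifs with h1
    · exact h1
    · rw [norm_zero]; exact norm_nonneg _
  have hhu : ∀ᵐ t ∂ν, h t = u t := by
    filter_upwards [hbound] with t ht
    simp only [hh]
    rw [if_pos ht]
  have hint : ∀ f : α → ℂ, Integrable f ν → Integrable (fun t => f t * h t) ν := by
    intro f hf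
    refine hf.mul_bdd (c := ‖ℓ‖) hhm.aestronglyMeasurable (Filter.Eventually.of_forall hhb)
  refine ⟨h, hhm, hhb, ?_⟩
  -- the second functional
  set m : Lp ℂ 1 ν →L[ℂ] ℂ := LinearMap.mkContinuous
    { toFun := fun f => ∫ t, f t * h t ∂ν
      map_add' := by
        intro f g
        rw [← integral_add (hint _ (L1.integrable_coeFn f)) (hint _ (L1.integrable_coeFn g))]
        apply integral_congr_ae
        filter_upwards [Lp.coeFn_add f g] with t ht
        rw [ht, Pi.add_apply, add_mul]
      map_smul' := by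
        intro c f
        rw [RingHom.id_apply, smul_eq_mul, ← integral_const_mul]
        apply integral_congr_ae
        filter_upwards [Lp.coeFn_smul c f] with t ht
        rw [ht, Pi.smul_apply, smul_eq_mul, mul_assoc] }
    ‖ℓ‖
    (by
      intro f
      show ‖∫ t, f t * h t ∂ν‖ ≤ _
      rw [L1.norm_eq_integral_norm, ← integral_const_mul]
      refine (norm_integral_le_integral_norm _).trans ?_
      apply integral_mono (hint _ (L1.integrable_coeFn f)).norm
        ((L1.integrable_coeFn f).norm.const_mul _)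
      intro t
      simp only [norm_mul]
      rw [mul_comm]
      exact mul_le_mul_of_nonneg_right (hhb t) (norm_nonneg _)) with hm
  have hmf : ∀ f, m f = ∫ t, f t * h t ∂ν := fun f => rfl
  have hL2 : ∀ (f : α → ℂ) (hf : MemLp f 2 ν), ℓ ((hf.mono_exponent one_le_two).toLp f) =
      m ((hf.mono_exponent one_le_two).toLp f) := by
    intro f hf
    rw [hu3 f hf, hmf]
    apply integral_congr_ae
    filter_upwards [hhu, (hf.mono_exponent one_le_two).coeFn_toLp] with t ht ht'
    rw [ht, ht']
  intro f
  rw [← hmf]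
  refine Lp.induction (p := 1) ENNReal.one_ne_top (motive := fun f => ℓ f = m f) ?_ ?_ ?_ f
  · intro c s hs hμs
    have h2 : MemLp (s.indicator fun _ => c) 2 ν := memLp_indicator_const 2 hs c (Or.inr hμs.ne)
    have h3 := hL2 _ h2
    have h4 : ((Lp.simpleFunc.indicatorConst 1 hs hμs.ne c : Lp.simpleFunc ℂ 1 ν) : Lp ℂ 1 ν) =
        (h2.mono_exponent one_le_two).toLp _ := by
      rw [Lp.simpleFunc.coe_indicatorConst]
      rfl
    rw [h4]
    exact h3
  · intro f g hf hg _ h1 h2
    rw [map_add, map_add, h1, h2]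
  · exact isClosed_eq ℓ.continuous m.continuous

end Fin

/-! ### The line -/

/-- the density `1 / (1 + t²)` -/
noncomputable def wt (t : ℝ) : ℝ≥0 := Real.toNNReal ((1 + t ^ 2)⁻¹)

theorem wt_meas : Measurable wt := by
  unfold wt
  fun_prop

theorem wt_coe (t : ℝ) : (wt t : ℝ) = (1 + t ^ 2)⁻¹ := by
  unfold wt
  rw [Real.coe_toNNReal]
  positivity

theorem wt_pos (t : ℝ) : 0 < (wt t : ℝ) := by
  rw [wt_coe]
  positivity

/-- the finite measure with density `wt` -/
noncomputable abbrev nu : Measure ℝ := (volume : Measure ℝ).withDensity (fun t => (wt t : ℝ≥0∞))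

instance : IsFiniteMeasure nu := by
  refine isFiniteMeasure_withDensity ?_
  have h1 : Integrable (fun t : ℝ => (1 + t ^ 2)⁻¹) := integrable_inv_one_add_sq
  have h2 := h1.lintegral_lt_top
  exact h2.ne

/-- the functional on `L^1` of the finite measure -/
noncomputable def trans (ℓ : Lp ℂ 1 (volume : Measure ℝ) →L[ℂ] ℂ) : Lp ℂ 1 nu →L[ℂ] ℂ :=
  LinearMap.mkContinuous
    { toFun := fun f => ℓ (withDensitySMulLI (E := ℂ) (volume : Measure ℝ) wt_meas f)
      map_add' := by
        intro f g
        rw [map_add, map_add]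
      map_smul' := by
        intro c f
        rw [RingHom.id_apply, ← map_smul]
        congr 1
        ext1
        filter_upwards [(ae_withDensity_iff wt_meas.coe_nnreal_ennreal).1 (Lp.coeFn_smul c f),
          (memL1_smul_of_L1_withDensity wt_meas (c • f)).coeFn_toLp,
          Lp.coeFn_smul c ((memL1_smul_of_L1_withDensity wt_meas f).toLp _),
          (memL1_smul_of_L1_withDensity wt_meas f).coeFn_toLp] with x h h' h'' h'''
        rw [withDensitySMulLI_apply, withDensitySMulLI_apply, h', h'', Pi.smul_apply, h''']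
        rw [h (by simpa using (wt_pos x).ne'), smul_comm, Pi.smul_apply] }
    ‖ℓ‖
    (by
      intro f
      refine (ℓ.le_opNorm _).trans ?_
      rw [LinearIsometry.norm_map])

theorem dual : DualStmt := by
  intro ℓ
  obtain ⟨h, hm, hb, hf⟩ := dual_finite (trans ℓ)
  refine ⟨h, hm, ⟨_, hb⟩, ?_⟩
  intro f
  have hfi : Integrable (f : ℝ → ℂ) volume := L1.integrable_coeFn f
  -- the function `f / w`
  set g : ℝ → ℂ := fun t => ((wt t : ℝ) : ℂ)⁻¹ * f t with hg
  have hwg : ∀ t, wt t • g t = f t := by
    intro t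
    rw [NNReal.smul_def, Complex.real_smul, hg]
    have : ((wt t : ℝ) : ℂ) ≠ 0 := by
      exact_mod_cast (wt_pos t).ne'
    field_simp
  have hgi : Integrable g nu := by
    rw [nu, integrable_withDensity_iff_integrable_smul wt_meas]
    simp only [hwg]
    exact hfi
  have hgm : MemLp g 1 nu := memLp_one_iff_integrable.2 hgi
  have h1 := hf (hgm.toLp g)
  have h2 : trans ℓ (hgm.toLp g) = ℓ f := by
    show ℓ (withDensitySMulLI (E := ℂ) (volume : Measure ℝ) wt_meas (hgm.toLp g)) = ℓ f
    congr 1
    rw [withDensitySMulLI_apply]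
    ext1
    filter_upwards [(memL1_smul_of_L1_withDensity wt_meas (hgm.toLp g)).coeFn_toLp,
      (ae_withDensity_iff wt_meas.coe_nnreal_ennreal).1 hgm.coeFn_toLp] with t h3 h4
    rw [h3, h4 (by simpa using (wt_pos t).ne'), hwg]
  rw [← h2, h1]
  have h5 : ∫ t, (hgm.toLp g) t * h t ∂nu = ∫ t, g t * h t ∂nu := by
    apply integral_congr_ae
    filter_upwards [hgm.coeFn_toLp] with t ht
    rw [ht]
  rw [h5, nu, integral_withDensity_eq_integral_smul wt_meas]
  apply integral_congr_ae
  refine Filter.Eventually.of_forall (fun t => ?_)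
  simp only
  rw [← smul_mul_assoc, hwg]

end Pool.Agent.H78E.H61
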