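import Pool.Agent.Helper78_E.Pos
import Pool.Agent.Helper78_E.Loc

/-!
# MP_7d2497_an: module RAD
-/

namespace Pool.Agent.H78E.H61

open MeasureTheory Filter Topology Complex Pool.Agent.H78E

noncomputable section

theorem chi_le {z : ℂ} (hz : z.im ≤ 0) (f : Y) : ‖chi z f‖ ≤ ‖f‖ := by
  have h := (chi z).le_opNorm f
  have h1 := chi_norm hz
  calc ‖chi z f‖ ≤ ‖chi z‖ * ‖f‖ := h
    _ ≤ 1 * ‖f‖ := mul_le_mul_of_nonneg_right h1 (norm_nonneg _)
    _ = ‖f‖ := one_mul _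

theorem chi_continuousOn (f : Y) : ContinuousOn (fun z => chi z f) {z : ℂ | z.im ≤ 0} := by
  have h1 : ContinuousOn (fun z : ℂ => ∫ t in Set.Ioi (0 : ℝ), ((f : X) : ℝ → ℂ) t *
      Complex.exp (-(Complex.I * (t : ℂ) * z))) {z : ℂ | z.im ≤ 0} := by
    refine continuousOn_of_dominated (bound := fun t => ‖((f : X) : ℝ → ℂ) t‖) ?_ ?_ ?_ ?_
    · intro z _
      refine AEStronglyMeasurable.mul (Y_integrable f).aestronglyMeasurable.restrict ?_
      apply Continuous.aestronglyMeasurable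
      fun_prop
    · intro z hz
      filter_upwards [ae_restrict_mem measurableSet_Ioi] with t ht
      have h2 := norm_expPos (z := z) hz t
      unfold expPos at h2
      rw [if_pos (le_of_lt ht)] at h2
      rw [norm_mul]
      calc _ ≤ ‖((f : X) : ℝ → ℂ) t‖ * 1 := mul_le_mul_of_nonneg_left h2 (norm_nonneg _)
        _ = _ := mul_one _
    · exact (Y_integrable f).norm.integrableOn
    · refine ae_of_all _ fun t => ?_
      apply Continuous.continuousOn
      fun_prop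
  refine h1.congr fun z hz => ?_
  exact chi_eq_Ioi hz f

/-- the point of the lower half-plane -/
def zt (x0 : ℝ) (ζ : ℂ) : ℂ := (x0 : ℂ) - Complex.I / ζ

theorem zt_im (x0 : ℝ) (ζ : ℂ) : (zt x0 ζ).im = -(ζ.re / Complex.normSq ζ) := by
  unfold zt
  rw [div_eq_mul_inv]
  simp [Complex.inv_re, Complex.inv_im, Complex.mul_im]

theorem zt_im_neg {x0 : ℝ} {ζ : ℂ} (h : 0 < ζ.re) : (zt x0 ζ).im < 0 := by
  rw [zt_im]
  have h1 : ζ ≠ 0 := by rintro rfl; simp at h
  have h2 : 0 < Complex.normSq ζ := Complex.normSq_pos.2 h1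
  have := div_pos h h2
  linarith

theorem zt_im_nonpos {x0 : ℝ} {ζ : ℂ} (h : 0 ≤ ζ.re) : (zt x0 ζ).im ≤ 0 := by
  rw [zt_im]
  have := div_nonneg h (Complex.normSq_nonneg ζ)
  linarith

/-- the function of the Phragmén-Lindelöf argument -/
def GG (f : Y) (x0 a δ : ℝ) (ζ : ℂ) : ℂ :=
  chi (zt x0 ζ) f * Complex.exp ((a : ℂ) * ζ) * (ζ / (ζ + (δ : ℂ)))

theorem add_ne {ζ : ℂ} {δ : ℝ} (hδ : 0 < δ) (h : 0 ≤ ζ.re) : ζ + (δ : ℂ) ≠ 0 := by
  intro h0
  have := congrArg Complex.re h0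
  simp at this
  linarith

theorem ratio_le {ζ : ℂ} {δ : ℝ} (hδ : 0 < δ) (h : 0 ≤ ζ.re) : ‖ζ / (ζ + (δ : ℂ))‖ ≤ 1 := by
  rw [norm_div]
  apply div_le_one_of_le₀ _ (norm_nonneg _)
  rw [← sq_le_sq₀ (norm_nonneg _) (norm_nonneg _), ← Complex.normSq_eq_norm_sq,
    ← Complex.normSq_eq_norm_sq, Complex.normSq_apply, Complex.normSq_apply]
  simp only [Complex.add_re, Complex.ofReal_re, Complex.add_im, Complex.ofReal_im, add_zero]
  nlinarith

theorem ratio_le' {ζ : ℂ} {δ : ℝ} (hδ : 0 < δ) (h : 0 ≤ ζ.re) :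
    ‖ζ / (ζ + (δ : ℂ))‖ ≤ ‖ζ‖ / δ := by
  rw [norm_div]
  apply div_le_div_of_nonneg_left (norm_nonneg _) hδ
  have h1 := Complex.abs_re_le_norm (ζ + (δ : ℂ))
  simp only [Complex.add_re, Complex.ofReal_re] at h1
  rw [abs_of_nonneg (by linarith)] at h1
  linarith

theorem GG_le {f : Y} {x0 a δ : ℝ} (ha : 0 < a) (_hδ : 0 < δ) {ζ : ℂ} (h : 0 ≤ ζ.re) :
    ‖GG f x0 a δ ζ‖ ≤ ‖f‖ * Real.exp (a * ‖ζ‖) * ‖ζ / (ζ + (δ : ℂ))‖ := by
  unfold GG
  rw [norm_mul, norm_mul, Complex.norm_exp]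
  refine mul_le_mul_of_nonneg_right ?_ (norm_nonneg _)
  refine mul_le_mul (chi_le (zt_im_nonpos h) f) ?_ (Real.exp_pos _).le (norm_nonneg _)
  apply Real.exp_le_exp.2
  have h1 := Complex.re_le_norm ζ
  simp only [Complex.mul_re, Complex.ofReal_re, Complex.ofReal_im, zero_mul, sub_zero]
  exact mul_le_mul_of_nonneg_left h1 ha.le

theorem GG_diff {f : Y} {x0 a δ : ℝ} (ha : 0 < a) (hδ : 0 < δ) :
    DiffContOnCl ℂ (GG f x0 a δ) {ζ | 0 < ζ.re} := by
  have hcl : closure {ζ : ℂ | 0 < ζ.re} = {ζ | 0 ≤ ζ.re} := Complex.closure_setOfPred_lt_re 0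
  constructor
  · have h1 : DifferentiableOn ℂ (zt x0) {ζ | 0 < ζ.re} := by
      intro ζ hζ
      have h0 : ζ ≠ 0 := by rintro rfl; simp at hζ
      unfold zt
      exact ((differentiableAt_const _).sub ((differentiableAt_const _).div
        differentiableAt_id h0)).differentiableWithinAt
    have h2 : DifferentiableOn ℂ (fun ζ => chi (zt x0 ζ) f) {ζ | 0 < ζ.re} :=
      (chi_differentiableOn f).comp h1 fun ζ hζ => zt_im_neg hζ
    refine (h2.mul ?_).mul ?_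
    · apply Differentiable.differentiableOn
      fun_prop
    · intro ζ hζ
      refine (differentiableAt_id.div (differentiableAt_id.add (differentiableAt_const _))
        ?_).differentiableWithinAt
      exact add_ne hδ (le_of_lt hζ)
  · rw [hcl]
    intro ζ hζ
    have hζ' : 0 ≤ ζ.re := hζ
    by_cases h0 : ζ = 0
    · subst h0
      have h1 : GG f x0 a δ 0 = 0 := by simp [GG]
      rw [ContinuousWithinAt, h1]
      have h2 : Tendsto (fun ζ : ℂ => ‖f‖ * Real.exp (a * ‖ζ‖) * (‖ζ‖ / δ))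
          (𝓝[{ζ | 0 ≤ ζ.re}] 0) (𝓝 0) := by
        have h3 : Continuous fun ζ : ℂ => ‖f‖ * Real.exp (a * ‖ζ‖) * (‖ζ‖ / δ) := by fun_prop
        have h4 := (h3.tendsto 0).mono_left (nhdsWithin_le_nhds (s := {ζ : ℂ | 0 ≤ ζ.re}))
        simpa using h4
      refine squeeze_zero_norm' ?_ h2
      filter_upwards [self_mem_nhdsWithin] with w hw
      refine (GG_le ha hδ hw).trans ?_
      exact mul_le_mul_of_nonneg_left (ratio_le' hδ hw) (by positivity)
    · have h1 : ContinuousWithinAt (zt x0) {ζ | 0 ≤ ζ.re} ζ := by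
        unfold zt
        exact (continuousAt_const.sub (continuousAt_const.div continuousAt_id h0)).continuousWithinAt
      have h2 : ContinuousWithinAt (fun ζ => chi (zt x0 ζ) f) {ζ | 0 ≤ ζ.re} ζ :=
        ContinuousWithinAt.comp (t := {z : ℂ | z.im ≤ 0})
          (chi_continuousOn f _ (zt_im_nonpos hζ')) h1 fun w hw => zt_im_nonpos hw
      unfold GG
      refine (h2.mul ?_).mul ?_
      · apply Continuous.continuousWithinAt
        fun_prop
      · exact (continuousAt_id.div (continuousAt_id.add continuousAt_const)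
          (add_ne hδ hζ')).continuousWithinAt

/-- A bound on the radius gives the bound in the half-plane. -/
theorem pl (f : Y) {x0 a : ℝ} (ha : 0 < a)
    (hb : ∃ C : ℝ, ∀ y : ℝ, 0 < y →
      ‖chi ((x0 : ℂ) - Complex.I * (y : ℂ)) f‖ ≤ C * Real.exp (-(a / y))) {ζ : ℂ}
    (hζ : 0 < ζ.re) : ‖chi (zt x0 ζ) f‖ * Real.exp (a * ζ.re) ≤ ‖f‖ := by
  obtain ⟨C, hC⟩ := hb
  have key : ∀ δ : ℝ, 0 < δ → ‖GG f x0 a δ ζ‖ ≤ ‖f‖ := by
    intro δ hδ
    refine PhragmenLindelof.right_half_plane_of_bounded_on_real (GG_diff ha hδ)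
      ⟨1, by norm_num, a, ?_⟩ ?_ ?_ hζ.le
    · refine Asymptotics.IsBigO.of_bound ‖f‖ ?_
      rw [eventually_inf_principal]
      refine Eventually.of_forall fun w hw => ?_
      have hw' : 0 ≤ w.re := le_of_lt hw
      refine (GG_le ha hδ hw').trans ?_
      rw [Real.rpow_one, Real.norm_of_nonneg (Real.exp_pos _).le]
      calc ‖f‖ * Real.exp (a * ‖w‖) * ‖w / (w + (δ : ℂ))‖
          ≤ ‖f‖ * Real.exp (a * ‖w‖) * 1 :=
            mul_le_mul_of_nonneg_left (ratio_le hδ hw') (by positivity)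
        _ = _ := mul_one _
    · refine ⟨C, ?_⟩
      rw [eventually_map]
      filter_upwards [eventually_gt_atTop (0 : ℝ)] with x hx
      have h1 := hC (1 / x) (by positivity)
      have e1 : (x0 : ℂ) - Complex.I * ((1 / x : ℝ) : ℂ) = zt x0 (x : ℂ) := by
        unfold zt
        push_cast
        ring
      have e2 : a / (1 / x) = a * x := by field_simp
      rw [e1, e2] at h1
      unfold GG
      rw [norm_mul, norm_mul, Complex.norm_exp]
      have e3 : ((a : ℂ) * (x : ℂ)).re = a * x := by simp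
      rw [e3]
      have h3 : ‖chi (zt x0 (x : ℂ)) f‖ * Real.exp (a * x) ≤ C := by
        calc ‖chi (zt x0 (x : ℂ)) f‖ * Real.exp (a * x)
            ≤ C * Real.exp (-(a * x)) * Real.exp (a * x) :=
              mul_le_mul_of_nonneg_right h1 (Real.exp_pos _).le
          _ = C := by rw [mul_assoc, ← Real.exp_add]; simp
      calc _ ≤ ‖chi (zt x0 (x : ℂ)) f‖ * Real.exp (a * x) * 1 :=
            mul_le_mul_of_nonneg_left (ratio_le hδ (by simpa using hx.le)) (by positivity)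
        _ ≤ C := by rw [mul_one]; exact h3
    · intro x
      unfold GG
      rw [norm_mul, norm_mul, Complex.norm_exp]
      have e3 : ((a : ℂ) * ((x : ℂ) * Complex.I)).re = 0 := by simp
      have h0 : (0 : ℝ) ≤ ((x : ℂ) * Complex.I).re := by simp
      rw [e3, Real.exp_zero, mul_one]
      calc _ ≤ ‖f‖ * 1 := mul_le_mul (chi_le (zt_im_nonpos h0) f) (ratio_le hδ h0)
            (norm_nonneg _) (norm_nonneg _)
        _ = _ := mul_one _
  have hζ0 : ζ ≠ 0 := by rintro rfl; simp at hζ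
  have hn : 0 < ‖ζ‖ := norm_pos_iff.2 hζ0
  set A : ℝ := ‖chi (zt x0 ζ) f‖ * Real.exp (a * ζ.re) with hA
  have h1 : ∀ δ : ℝ, 0 < δ → A * ‖ζ‖ ≤ ‖f‖ * ‖ζ‖ + ‖f‖ * δ := by
    intro δ hδ
    have h2 := key δ hδ
    unfold GG at h2
    rw [norm_mul, norm_mul, Complex.norm_exp] at h2
    have e3 : ((a : ℂ) * ζ).re = a * ζ.re := by simp
    rw [e3, ← hA, norm_div] at h2
    have hd : 0 < ‖ζ + (δ : ℂ)‖ := norm_pos_iff.2 (add_ne hδ hζ.le)
    rw [← mul_div_assoc, div_le_iff₀ hd] at h2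
    have h3 : ‖ζ + (δ : ℂ)‖ ≤ ‖ζ‖ + δ := by
      refine (norm_add_le _ _).trans ?_
      rw [Complex.norm_real, Real.norm_of_nonneg hδ.le]
    have := mul_le_mul_of_nonneg_left h3 (norm_nonneg f)
    linarith
  have h2 : A * ‖ζ‖ ≤ ‖f‖ * ‖ζ‖ := by
    apply le_of_forall_pos_le_add
    intro ε hε
    have h3 := h1 (ε / (‖f‖ + 1)) (by positivity)
    have h4 : ‖f‖ * (ε / (‖f‖ + 1)) ≤ ε := by
      rw [← mul_div_assoc, div_le_iff₀ (by positivity)]
      nlinarith [norm_nonneg f]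
    linarith
  exact le_of_mul_le_mul_right h2 hn

/-- the space of elements which are small at `x0` -/
def WW (x0 a : ℝ) : Submodule ℂ Y where
  carrier := {f | ∃ C : ℝ, ∀ ζ : ℂ, 0 < ζ.re → ‖chi (zt x0 ζ) f‖ * Real.exp (a * ζ.re) ≤ C}
  add_mem' := by
    rintro f g ⟨C1, h1⟩ ⟨C2, h2⟩
    refine ⟨C1 + C2, fun ζ hζ => ?_⟩
    rw [map_add]
    calc ‖chi (zt x0 ζ) f + chi (zt x0 ζ) g‖ * Real.exp (a * ζ.re)
        ≤ (‖chi (zt x0 ζ) f‖ + ‖chi (zt x0 ζ) g‖) * Real.exp (a * ζ.re) :=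
          mul_le_mul_of_nonneg_right (norm_add_le _ _) (Real.exp_pos _).le
      _ ≤ C1 + C2 := by rw [add_mul]; exact add_le_add (h1 ζ hζ) (h2 ζ hζ)
  zero_mem' := ⟨0, fun ζ _ => by rw [map_zero, norm_zero, zero_mul]⟩
  smul_mem' := by
    rintro c f ⟨C, h⟩
    refine ⟨‖c‖ * C, fun ζ hζ => ?_⟩
    rw [map_smul, norm_smul, mul_assoc]
    exact mul_le_mul_of_nonneg_left (h ζ hζ) (norm_nonneg _)

theorem zt_radius (x0 : ℝ) {y : ℝ} (_hy : 0 < y) :
    zt x0 ((1 / y : ℝ) : ℂ) = (x0 : ℂ) - Complex.I * (y : ℂ) := by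
  unfold zt
  push_cast
  rw [one_div, div_inv_eq_mul]

theorem WW_sharp {x0 a : ℝ} (ha : 0 < a) {f : Y} (hf : f ∈ WW x0 a) {ζ : ℂ} (hζ : 0 < ζ.re) :
    ‖chi (zt x0 ζ) f‖ * Real.exp (a * ζ.re) ≤ ‖f‖ := by
  obtain ⟨C, hC⟩ := hf
  refine pl f ha ⟨C, fun y hy => ?_⟩ hζ
  have h1 := hC ((1 / y : ℝ) : ℂ) (by rw [Complex.ofReal_re]; positivity)
  rw [zt_radius x0 hy, Complex.ofReal_re] at h1
  have e : a * (1 / y) = a / y := by ring
  rw [e] at h1
  rw [Real.exp_neg, ← div_eq_mul_inv, le_div_iff₀ (Real.exp_pos _)]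
  exact h1

theorem WW_closed {x0 a : ℝ} (ha : 0 < a) : IsClosed (WW x0 a : Set Y) := by
  have e : (WW x0 a : Set Y) = ⋂ (ζ : ℂ) (_ : 0 < ζ.re),
      {f : Y | ‖chi (zt x0 ζ) f‖ * Real.exp (a * ζ.re) ≤ ‖f‖} := by
    ext f
    simp only [Set.mem_iInter, Set.mem_ofPred_eq, SetLike.mem_coe]
    constructor
    · intro hf ζ hζ
      exact WW_sharp ha hf hζ
    · intro h
      exact ⟨‖f‖, h⟩
  rw [e]
  refine isClosed_iInter fun ζ => isClosed_iInter fun _ => ?_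
  exact isClosed_le (by fun_prop) continuous_norm

theorem WW_inv {x0 a : ℝ} {f : Y} (hf : f ∈ WW x0 a) {s : ℝ} (hs : 0 ≤ s) : YT s f ∈ WW x0 a := by
  obtain ⟨C, hC⟩ := hf
  refine ⟨C, fun ζ hζ => ?_⟩
  have hz := (zt_im_neg (x0 := x0) hζ).le
  rw [chi_YT hz hs, norm_mul, Complex.norm_exp]
  have h1 : Real.exp (-(Complex.I * (s : ℂ) * zt x0 ζ)).re ≤ 1 := by
    rw [Real.exp_le_one_iff]
    simp only [Complex.neg_re, Complex.mul_re, Complex.I_re, Complex.ofReal_re, zero_mul,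
      Complex.I_im, Complex.ofReal_im, mul_zero, sub_self, Complex.mul_im, one_mul, zero_add,
      zero_sub, neg_neg]
    nlinarith
  calc _ ≤ 1 * ‖chi (zt x0 ζ) f‖ * Real.exp (a * ζ.re) := by gcongr
    _ ≤ C := by rw [one_mul]; exact hC ζ hζ

theorem sep_notMem {x0 a : ℝ} (ha : 0 < a) : sep (x0 : ℂ) ∉ WW x0 a := by
  rintro ⟨C, hC⟩
  set B : ℝ := 2 + |x0| with hB
  have hB0 : 0 < B := by positivity
  set y : ℝ := min 1 (a ^ 2 / (2 * B ^ 2 * (|C| + 1))) with hy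
  have hy0 : 0 < y := lt_min one_pos (by positivity)
  have hy1 : y ≤ 1 := min_le_left _ _
  have hy2 : y ≤ a ^ 2 / (2 * B ^ 2 * (|C| + 1)) := min_le_right _ _
  have h1 := hC ((1 / y : ℝ) : ℂ) (by rw [Complex.ofReal_re]; positivity)
  have him : ((x0 : ℂ) - Complex.I * (y : ℂ)).im ≤ 0 := by simp; exact hy0.le
  rw [zt_radius x0 hy0, Complex.ofReal_re, chi_sep him] at h1
  have e1 : Complex.I * ((x0 : ℂ) - Complex.I * (y : ℂ) - (x0 : ℂ)) = (y : ℂ) := by
    have := Complex.I_mul_I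
    linear_combination (-(y : ℂ)) * this
  rw [e1, norm_div, norm_pow, Complex.norm_real, Real.norm_of_nonneg hy0.le] at h1
  have hn0 : 0 < ‖1 + Complex.I * ((x0 : ℂ) - Complex.I * (y : ℂ))‖ :=
    norm_pos_iff.2 (one_add_ne him)
  have hn : ‖1 + Complex.I * ((x0 : ℂ) - Complex.I * (y : ℂ))‖ ≤ B := by
    refine (norm_one_add_le _).trans ?_
    have h2 : ‖(x0 : ℂ) - Complex.I * (y : ℂ)‖ ≤ |x0| + y := by
      refine (norm_sub_le _ _).trans ?_
      rw [Complex.norm_real, norm_mul, Complex.norm_I, one_mul, Complex.norm_real,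
        Real.norm_eq_abs, Real.norm_of_nonneg hy0.le]
    linarith
  have h3 : y / B ^ 2 ≤ y / ‖1 + Complex.I * ((x0 : ℂ) - Complex.I * (y : ℂ))‖ ^ 2 :=
    div_le_div_of_nonneg_left hy0.le (by positivity) (pow_le_pow_left₀ hn0.le hn 2)
  have h4 : (a * (1 / y)) ^ 2 / 2 ≤ Real.exp (a * (1 / y)) := by
    have := Real.quadratic_le_exp_of_nonneg (x := a * (1 / y)) (by positivity)
    have h5 : 0 < a * (1 / y) := by positivity
    linarith
  have h6 : y / B ^ 2 * ((a * (1 / y)) ^ 2 / 2) ≤ C :=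
    (mul_le_mul h3 h4 (by positivity) (by positivity)).trans h1
  have h7 : y / B ^ 2 * ((a * (1 / y)) ^ 2 / 2) = a ^ 2 / (2 * B ^ 2) / y := by
    field_simp
  rw [h7, div_le_iff₀ hy0] at h6
  have h8 : (|C| + 1) * y ≤ a ^ 2 / (2 * B ^ 2) := by
    rw [le_div_iff₀ (by positivity)] at hy2
    rw [le_div_iff₀ (by positivity)]
    linarith
  have h9 : C * y ≤ |C| * y := mul_le_mul_of_nonneg_right (le_abs_self C) hy0.le
  linarith

theorem fact_mem {A : ℝ → ℝ → ℝ → (Y →L[ℂ] Y)} (hA : FactProp A) {x0 a : ℝ} (ha : 0 < a) :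
    A x0 a 1 rr ∈ WW x0 a := by
  refine ⟨‖rr‖, fun ζ hζ => ?_⟩
  have hz := zt_im_neg (x0 := x0) hζ
  have hne : zt x0 ζ ≠ (x0 : ℂ) := by
    intro h
    rw [h] at hz
    simp at hz
  have hζ0 : ζ ≠ 0 := by rintro rfl; simp at hζ
  rw [(hA x0 a 1 ha one_pos).2.1 _ hz.le hne, norm_mul]
  have e : Complex.I * (zt x0 ζ - (x0 : ℂ)) = 1 / ζ := by
    unfold zt
    have := Complex.I_mul_I
    field_simp
    linear_combination (-1 : ℂ) * this
  unfold mult
  rw [e, norm_mul, Complex.norm_exp]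
  have e2 : (-((a : ℂ) / (1 / ζ))).re = -(a * ζ.re) := by simp
  have hre : 0 ≤ (1 / ζ).re := by
    rw [one_div, Complex.inv_re]
    exact div_nonneg hζ.le (Complex.normSq_nonneg _)
  have h1 : ‖(1 / ζ / (((1 : ℝ) : ℂ) + 1 / ζ)) ^ 2‖ ≤ 1 := by
    rw [norm_pow, add_comm]
    exact pow_le_one₀ (norm_nonneg _) (ratio_le one_pos hre)
  rw [e2]
  calc _ ≤ 1 * Real.exp (-(a * ζ.re)) * ‖rr‖ * Real.exp (a * ζ.re) := by
        gcongr
        exact chi_le hz.le rr
    _ = ‖rr‖ := by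
        rw [Real.exp_neg]
        have := (Real.exp_pos (a * ζ.re)).ne'
        field_simp

/-- RAD -/
theorem rad (hF : FactStmt) (hNe : NeStmt) : RadStmt := by
  intro l hl x0 hx0 a ha
  by_contra hcon
  push Not at hcon
  have hI : (ann l).I ≤ WW x0 a := fun f hf =>
    ⟨‖f‖, fun ζ hζ => pl f ha ⟨‖f‖, fun y hy => hcon f hf y hy⟩ hζ⟩
  have hsep := sep_notMem (x0 := x0) ha
  set J : InvSub := ⟨WW x0 a, WW_closed ha, fun s hs f hf => WW_inv hf hs⟩ with hJ
  have hq : J.qm (sep (x0 : ℂ)) ≠ 0 := by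
    rw [Ne, J.qm_eq_zero]
    exact hsep
  obtain ⟨ψ, hψ⟩ := SeparatingDual.exists_ne_zero (R := ℂ) hq
  set k : Y →L[ℂ] ℂ := ψ.comp J.qm with hk
  have hkW : ∀ f ∈ WW x0 a, k f = 0 := by
    intro f hf
    rw [hk, ContinuousLinearMap.comp_apply, J.qm_eq_zero.mpr hf, map_zero]
  have hks : k (sep (x0 : ℂ)) ≠ 0 := hψ
  have hk0 : k ≠ 0 := by
    intro h
    rw [h] at hks
    exact hks rfl
  have hkI : ∀ f ∈ (ann l).I, k f = 0 := fun f hf => hkW f (hI hf)
  have hne := hNe l hl ⟨_, hx0⟩ k hkI hk0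
  have hWk : WW x0 a ≤ (ann k).I := fun f hf s hs => hkW _ (WW_inv hf hs)
  obtain ⟨A, hA⟩ := hF
  have hsub : ∀ z ∈ (ann k).hull, z = (x0 : ℂ) := by
    intro z hz
    by_contra hzx
    have h1 := hz.2 _ (hWk (fact_mem hA ha))
    rw [(hA x0 a 1 ha one_pos).2.1 z hz.1 hzx] at h1
    rcases mul_eq_zero.1 h1 with h2 | h2
    · unfold mult at h2
      rcases mul_eq_zero.1 h2 with h3 | h3
      · have h4 := pow_eq_zero_iff (two_ne_zero) |>.1 h3
        rcases div_eq_zero_iff.1 h4 with h5 | h5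
        · rcases mul_eq_zero.1 h5 with h6 | h6
          · exact Complex.I_ne_zero h6
          · exact hzx (sub_eq_zero.1 h6)
        · have h6 := congrArg Complex.re h5
          simp at h6
          have := hz.1
          linarith
      · exact Complex.exp_ne_zero _ h3
    · exact chi_rr_ne hz.1 h2
  have hull : (ann k).hull = {(x0 : ℂ)} := by
    apply Set.Subset.antisymm
    · intro z hz
      exact hsub z hz
    · rintro z rfl
      obtain ⟨w, hw⟩ := hne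
      have := hsub w hw
      rw [this] at hw
      exact hw
  obtain ⟨c, z', hz', hkc⟩ := hl k hkI ⟨_, hull⟩
  have hx0k : (x0 : ℂ) ∈ (ann k).hull := by rw [hull]; exact rfl
  have hsz : sep z' ∈ (ann k).I := by
    intro s hs
    rw [hkc, smul_apply, sep_mem hz' s hs, smul_zero]
  have h1 := hx0k.2 _ hsz
  rw [chi_sep hx0k.1] at h1
  have h2 : (x0 : ℂ) = z' := by
    rcases div_eq_zero_iff.1 h1 with h3 | h3
    · rcases mul_eq_zero.1 h3 with h4 | h4
      · exact absurd h4 Complex.I_ne_zero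
      · exact sub_eq_zero.1 h4
    · exact absurd h3 (pow_ne_zero _ (one_add_ne hx0k.1))
  apply hks
  rw [hkc, h2, smul_apply, chi_sep hz', sub_self, mul_zero, zero_div, smul_zero]

end

end Pool.Agent.H78E.H61
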