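import Pool.Agent.Helper78_E.Stmts

/-!
# MP_7d2497_an: modules ULTRA and GROW
-/

set_option autoImplicit false

namespace Pool.Agent.H78E.H61

open MeasureTheory Filter Topology Complex Pool.Agent.H78E

attribute [local instance] Ultrafilter.addSemigroup

/-- there is an idempotent ultrafilter at infinity -/
theorem exists_idem : ∃ U : Ultrafilter ℝ, (U : Filter ℝ) ≤ atTop ∧ U + U = U := by
  obtain ⟨U, hU, h⟩ := exists_idempotent_in_compact_add_subsemigroup
    (M := Ultrafilter ℝ) (fun V => Ultrafilter.continuous_add_left V)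
    {U : Ultrafilter ℝ | (U : Filter ℝ) ≤ atTop} ⟨Ultrafilter.of atTop, Ultrafilter.of_le atTop⟩
    (by
      apply IsClosed.isCompact
      have : {U : Ultrafilter ℝ | (U : Filter ℝ) ≤ atTop} =
          ⋂ s ∈ (atTop : Filter ℝ), {U : Ultrafilter ℝ | s ∈ U} := by
        ext U
        simp only [Set.mem_setOf_eq, Set.mem_iInter, Filter.le_def]
        rfl
      rw [this]
      exact isClosed_biInter (fun s _ => ultrafilter_isClosed_basic s))
    (by
      intro U hU V hV
      rw [Set.mem_setOf_eq, Filter.le_def]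
      intro s hs
      rw [mem_atTop_sets] at hs
      obtain ⟨a, ha⟩ := hs
      have h1 : ∀ᶠ m in ((U + V : Ultrafilter ℝ) : Filter ℝ), m ∈ s := by
        rw [Ultrafilter.eventually_add]
        have hU' : (U : Filter ℝ) ≤ atTop := hU
        have hV' : (V : Filter ℝ) ≤ atTop := hV
        filter_upwards [hU' (mem_atTop (0 : ℝ))] with m hm
        filter_upwards [hV' (mem_atTop a)] with m' hm'
        exact ha _ (by linarith [show (0:ℝ) ≤ m from hm, show a ≤ m' from hm'])
      exact h1)
  exact ⟨U, hU, h⟩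

theorem ultra : UltraStmt := by
  obtain ⟨U, hU, hid⟩ := exists_idem
  refine ⟨U, hU, ?_⟩
  intro f g L hf hg
  rw [(closed_nhds_basis L).tendsto_right_iff]
  rintro N ⟨hN, hNc⟩
  have h1 : ∀ᶠ m in ((U : Ultrafilter ℝ) : Filter ℝ), f m ∈ N := hf hN
  rw [← hid, Ultrafilter.eventually_add] at h1
  filter_upwards [h1, hU (mem_atTop (0 : ℝ))] with s hs hs0
  exact hNc.mem_of_tendsto (hg s hs0) hs

theorem grow : GrowStmt := by
  intro φ hφ hlim η hη
  -- the growth of the weight
  set δ : ℝ := Real.sqrt η with hδ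
  have hδ0 : 0 < δ := Real.sqrt_pos.2 hη
  have hδ2 : δ ^ 2 = η := Real.sq_sqrt hη.le
  have hφ0 : ∀ t, 0 < φ t := fun t => lt_of_lt_of_le one_pos (hφ.one_le t)
  obtain ⟨T, hT⟩ := Filter.eventually_atTop.1 (hlim.eventually_lt_const hδ0)
  set T' : ℝ := max T 1 with hT'
  have hT'1 : 1 ≤ T' := le_max_right _ _
  have h1 : ∀ t, T' ≤ t → φ (-t) ≤ Real.exp (δ * Real.sqrt t) := by
    intro t ht
    have h2 := hT t ((le_max_left _ _).trans ht)
    have h3 : 0 < Real.sqrt t := Real.sqrt_pos.2 (by linarith)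
    rw [div_lt_iff₀ h3] at h2
    rw [← Real.log_le_iff_le_exp (hφ0 _)]
    exact h2.le
  set C : ℝ := Real.exp (δ * Real.sqrt (2 * T')) * φ T' with hC
  have hC1 : 1 ≤ C := by
    rw [hC]
    have := Real.one_le_exp (show 0 ≤ δ * Real.sqrt (2 * T') by positivity)
    nlinarith [hφ.one_le T']
  have h2 : ∀ t, 0 ≤ t → φ (-t) ≤ C * Real.exp (δ * Real.sqrt t) := by
    intro t ht
    have he : 1 ≤ Real.exp (δ * Real.sqrt t) := Real.one_le_exp (by positivity)
    rcases le_or_gt T' t with h3 | h3
    · calc φ (-t) ≤ Real.exp (δ * Real.sqrt t) := h1 t h3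
        _ ≤ C * Real.exp (δ * Real.sqrt t) := le_mul_of_one_le_left (Real.exp_pos _).le hC1
    · have h4 := hφ.submul (-(t + T')) T'
      rw [show -(t + T') + T' = -t by ring] at h4
      have h5 := h1 (t + T') (by linarith)
      have h6 : Real.exp (δ * Real.sqrt (t + T')) ≤ Real.exp (δ * Real.sqrt (2 * T')) := by
        apply Real.exp_le_exp.2
        apply mul_le_mul_of_nonneg_left _ hδ0.le
        exact Real.sqrt_le_sqrt (by linarith)
      calc φ (-t) ≤ φ (-(t + T')) * φ T' := h4
        _ ≤ Real.exp (δ * Real.sqrt (2 * T')) * φ T' :=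
          mul_le_mul_of_nonneg_right (h5.trans h6) (hφ0 _).le
        _ = C := rfl
        _ ≤ C * Real.exp (δ * Real.sqrt t) := le_mul_of_one_le_right (by linarith) he
  have hC0 : 0 < C := by linarith
  refine ⟨η ^ 2 / (16 * C), by positivity, ?_⟩
  intro y hy hy0
  have h3 : ∀ t, 0 ≤ t → φ (-t) * Real.exp (-(y * t)) ≤
      (C * Real.exp (η / (2 * y))) * Real.exp (-(y / 2) * t) := by
    intro t ht
    have h4 : δ * Real.sqrt t ≤ y * t / 2 + η / (2 * y) := by
      have h5 : 0 ≤ (Real.sqrt t * y - δ) ^ 2 := sq_nonneg _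
      have h6 : Real.sqrt t ^ 2 = t := Real.sq_sqrt ht
      have h7 : y * t / 2 + η / (2 * y) - δ * Real.sqrt t =
          (Real.sqrt t * y - δ) ^ 2 / (2 * y) := by
        field_simp
        rw [← h6, ← hδ2]
        simp only [Real.sqrt_sq (Real.sqrt_nonneg t)]
        ring
      have h8 : 0 ≤ (Real.sqrt t * y - δ) ^ 2 / (2 * y) := by positivity
      linarith
    calc φ (-t) * Real.exp (-(y * t))
        ≤ (C * Real.exp (δ * Real.sqrt t)) * Real.exp (-(y * t)) :=
          mul_le_mul_of_nonneg_right (h2 t ht) (Real.exp_pos _).le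
      _ = C * Real.exp (δ * Real.sqrt t - y * t) := by
          rw [mul_assoc, ← Real.exp_add]; rfl
      _ ≤ C * Real.exp (η / (2 * y) + -(y / 2) * t) := by
          apply mul_le_mul_of_nonneg_left _ hC0.le
          apply Real.exp_le_exp.2
          linarith
      _ = _ := by rw [Real.exp_add]; ring
  have h4 : ∫ t in Set.Ioi (0 : ℝ), (C * Real.exp (η / (2 * y))) * Real.exp (-(y / 2) * t) =
      C * Real.exp (η / (2 * y)) * (2 / y) := by
    rw [integral_const_mul, integral_exp_mul_Ioi (by linarith)]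
    simp only [mul_zero, Real.exp_zero]
    congr 1
    field_simp
  have h5 : IntegrableOn (fun t => (C * Real.exp (η / (2 * y))) * Real.exp (-(y / 2) * t))
      (Set.Ioi (0 : ℝ)) := by
    apply Integrable.const_mul
    exact integrableOn_exp_mul_Ioi (by linarith) 0
  have h6 : ∫ t in Set.Ioi (0 : ℝ), φ (-t) * Real.exp (-(y * t)) ≤
      C * Real.exp (η / (2 * y)) * (2 / y) := by
    rw [← h4]
    apply integral_mono_of_nonneg
    · exact Filter.Eventually.of_forall (fun t => mul_nonneg (hφ0 _).le (Real.exp_pos _).le)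
    · exact h5
    · rw [Filter.EventuallyLE, ae_restrict_iff' measurableSet_Ioi]
      exact Filter.Eventually.of_forall (fun t ht => h3 t (le_of_lt ht))
  refine h6.trans ?_
  have h7 : Real.exp (η / y) = Real.exp (η / (2 * y)) * Real.exp (η / (2 * y)) := by
    rw [← Real.exp_add]
    congr 1
    field_simp
    ring
  rw [h7]
  have h8 : C * (2 / y) ≤ Real.exp (η / (2 * y)) := by
    have h9 := Real.quadratic_le_exp_of_nonneg (show 0 ≤ η / (2 * y) by positivity)
    have h10 : C * (2 / y) ≤ (η / (2 * y)) ^ 2 / 2 := by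
      rw [le_div_iff₀ (by positivity)] at hy0
      have : (η / (2 * y)) ^ 2 / 2 - C * (2 / y) = (η ^ 2 - y * (16 * C)) / (8 * y ^ 2) := by
        field_simp
        ring
      have h11 : 0 ≤ (η ^ 2 - y * (16 * C)) / (8 * y ^ 2) := by
        apply div_nonneg _ (by positivity)
        linarith
      linarith
    have h12 : 0 ≤ η / (2 * y) := by positivity
    linarith
  calc C * Real.exp (η / (2 * y)) * (2 / y) = Real.exp (η / (2 * y)) * (C * (2 / y)) := by ring
    _ ≤ _ := mul_le_mul_of_nonneg_left h8 (Real.exp_pos _).le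

end Pool.Agent.H78E.H61
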